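import Pool.Agent.DynBad.Main
import Pool.Agent.DynBad.DegPoint
import Pool.Agent.DynBad.BadInt
import Pool.Agent.DynBad.StmtDefs

/-!
# MP_eb4294_nt: the primes of bad reduction of `X_1^dyn(N)`

`GoodReduction N p`: there is an integral scheme, smooth and proper over `Spec ℤ_p`, whose
function field is (over `ℤ_p`) the function field of the curve `Φ_N(x,c) = 0` over `ℚ_p`; i.e. the
smooth projective curve `X_1^dyn(N)` has a smooth proper model over `ℤ_p`.

For all `N ≥ 1` and all primes `p`:

* `p = 2`: `X_1^dyn(N)` has good reduction at `2` iff `N ≤ 3`, or `N` is a prime with primitive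
  root `2`.
* `p` odd: good reduction at `p` iff the affine curve `Φ_N(x,c) = 0` has no singular point over an
  algebraic closure of `𝔽_p`, iff `p` does not divide the integer `badNumber N ≠ 0`, a generator
  of `(Φ_N, ∂Φ_N/∂x, ∂Φ_N/∂c) ∩ ℤ`.
* `p` odd, `p ∣ N`: good reduction iff `N = 3`.
* `p` odd, `p ∤ N`: good reduction iff there is no degenerate point `(x,c)` over an algebraic
  closure of `𝔽_p`: `x` of exact period `n ∣ N` for `f_c`, multiplier a primitive `(N/n)`-th root
  of unity, and, if `n = N`, every first order deformation of `(x,c)` is `N`-periodic, if `n < N`,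
  the multiplier is stationary along the curve of points of period `n`.
-/

namespace Pool.Agent.Results.MP_eb4294_nt.BadPrimes

open DynBad

theorem result (N : ℕ) (hN : 1 ≤ N) :
    badNumber N ≠ 0 ∧ ∀ (p : ℕ) [Fact p.Prime],
      (p = 2 → (GoodReduction N p ↔ N ≤ 3 ∨ (N.Prime ∧ orderOf (2 : ZMod N) = N - 1))) ∧
      (p ≠ 2 →
        (GoodReduction N p ↔ ¬ (p : ℤ) ∣ badNumber N) ∧
        (GoodReduction N p ↔ ∀ x c : AlgebraicClosure (ZMod p), ¬ SingularPoint N x c) ∧
        (p ∣ N → (GoodReduction N p ↔ N = 3)) ∧
        (¬ p ∣ N →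
          (GoodReduction N p ↔ ∀ x c : AlgebraicClosure (ZMod p), ¬ Degenerate N x c))) := by
  refine ⟨badNumber_ne_zero hN, fun p _ => ?_⟩
  simp only [goodReduction_iff, singularPoint_iff]
  refine ⟨(main hN p).2.1, fun hp2 => ?_⟩
  have h1 := (main hN p).1 hp2
  refine ⟨?_, h1, ?_, ?_⟩
  · rw [h1]
    constructor
    · intro h hdvd
      obtain ⟨x, c, hs⟩ := exists_singular_of_dvd hN hdvd
      exact h x c hs
    · intro h x c hs
      exact h (dvd_badNumber_of_singular x c hs)
  · intro hpN
    constructor
    · intro hg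
      have h3 : N ≤ 3 := by
        by_contra h4
        exact (main hN p).2.2 (by omega) hpN hg
      have hpp : p.Prime := Fact.out
      have hle := Nat.le_of_dvd hN hpN
      have h2 := hpp.two_le
      have hp3 : p = 3 := by omega
      subst hp3
      omega
    · rintro rfl
      exact (hasGoodReduction_iff_smoothMod hN p).mpr (smoothMod_small hN le_rfl p)
  · intro hpN
    rw [h1]
    have hN0 : ((N : ℕ) : AlgebraicClosure (ZMod p)) ≠ 0 := by
      rwa [Ne, CharP.cast_eq_zero_iff (AlgebraicClosure (ZMod p)) p]
    exact forall_congr' fun x => forall_congr' fun c =>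
      not_congr (singular_iff_degenerate hN hN0 x c)

end Pool.Agent.Results.MP_eb4294_nt.BadPrimes
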